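import Pool.Agent.P8H40.CY.Stm3

/-!
# Matrices over a subfield closed under square roots (REC)
-/

set_option autoImplicit false
set_option linter.all false

namespace Pool.Agent.P8H7.CY

open Pool.Agent.P8H40.CY Matrix

/-- all entries are in `C` -/
def Ent {n : ℕ} (C : Subfield ℂ) (M : Matrix (Fin n) (Fin n) ℂ) : Prop := ∀ i j, M i j ∈ C

variable {n : ℕ} {C : Subfield ℂ}

lemma ent_mul {M N : Matrix (Fin n) (Fin n) ℂ} (hM : Ent C M) (hN : Ent C N) : Ent C (M * N) := by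
  intro i j
  rw [Matrix.mul_apply]
  exact sum_mem (fun k _ => mul_mem (hM i k) (hN k j))

lemma ent_tr {M : Matrix (Fin n) (Fin n) ℂ} (hM : Ent C M) : Ent C M.transpose := by
  intro i j
  rw [Matrix.transpose_apply]
  exact hM j i

lemma ent_add {M N : Matrix (Fin n) (Fin n) ℂ} (hM : Ent C M) (hN : Ent C N) : Ent C (M + N) := by
  intro i j
  rw [Matrix.add_apply]
  exact add_mem (hM i j) (hN i j)

lemma ent_sub {M N : Matrix (Fin n) (Fin n) ℂ} (hM : Ent C M) (hN : Ent C N) : Ent C (M - N) := by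
  intro i j
  rw [Matrix.sub_apply]
  exact sub_mem (hM i j) (hN i j)

lemma ent_smul {M : Matrix (Fin n) (Fin n) ℂ} {a : ℂ} (ha : a ∈ C) (hM : Ent C M) : Ent C (a • M) := by
  intro i j
  rw [Matrix.smul_apply, smul_eq_mul]
  exact mul_mem ha (hM i j)

lemma ent_one : Ent C (1 : Matrix (Fin n) (Fin n) ℂ) := by
  intro i j
  rw [Matrix.one_apply]
  split_ifs
  · exact one_mem C
  · exact zero_mem C

lemma ent_rat (M : Matrix (Fin n) (Fin n) ℚ) : Ent C (M.map (algebraMap ℚ ℂ)) := by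
  intro i j
  rw [Matrix.map_apply, eq_ratCast]
  exact SubfieldClass.ratCast_mem C _

lemma ent_inv {M : Matrix (Fin n) (Fin n) ℂ} (hM : Ent C M) (hd : M.det ≠ 0) : Ent C M⁻¹ := by
  have h1 : ∃ M' : Matrix (Fin n) (Fin n) C, M'.map C.subtype = M :=
    ⟨fun i j => ⟨M i j, hM i j⟩, by ext i j; rfl⟩
  obtain ⟨M', hM'⟩ := h1
  have h2 : M.det = C.subtype M'.det := by
    rw [← hM']
    exact (RingHom.map_det C.subtype M').symm
  have h3 : M'.det ≠ 0 := by
    intro h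
    rw [h2, h, map_zero] at hd
    exact hd rfl
  have h4 : M' * M'⁻¹ = 1 := Matrix.mul_nonsing_inv M' (isUnit_iff_ne_zero.mpr h3)
  have h5 : M * (M'⁻¹).map C.subtype = 1 := by
    have h6 : (M' * M'⁻¹).map C.subtype = (1 : Matrix (Fin n) (Fin n) C).map C.subtype := by rw [h4]
    rw [Matrix.map_mul, hM', Matrix.map_one _ (map_zero _) (map_one _)] at h6
    exact h6
  rw [Matrix.inv_eq_right_inv h5]
  intro i j
  rw [Matrix.map_apply]
  exact (M'⁻¹ i j).2

theorem rec_sub : S_REC := by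
  intro n hn C hC J X₀ hJ hX R U S h ν hR hU hRd hUd hν hdS hh hsp hY
  haveI : Nonempty (Fin n) := ⟨⟨0, hn⟩⟩
  set Jc := J.map (algebraMap ℚ ℂ) with hJc
  set Ji := (J⁻¹).map (algebraMap ℚ ℂ) with hJi
  set Xc := X₀.map (algebraMap ℚ ℂ) with hXc
  have hJcd : Jc.det ≠ 0 := by
    rw [hJc, ← RingHom.mapMatrix_apply, ← RingHom.map_det]
    intro h0
    exact hJ ((map_eq_zero (algebraMap ℚ ℂ)).mp h0)
  have hX0 : X₀.det ≠ 0 := by
    intro h0
    apply hX
    rw [Matrix.det_mul, h0, mul_zero]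
  have hXcd : Xc.det ≠ 0 := by
    rw [hXc, ← RingHom.mapMatrix_apply, ← RingHom.map_det]
    intro h0
    exact hX0 ((map_eq_zero (algebraMap ℚ ℂ)).mp h0)
  have hJJ : Jc * Ji = 1 := by
    rw [hJc, hJi, ← Matrix.map_mul, Matrix.mul_nonsing_inv J (isUnit_iff_ne_zero.mpr hJ),
      Matrix.map_one _ (map_zero _) (map_one _)]
  -- `ν h X₀` has entries in `C`
  have hZ : Ent C (ν • (h * Xc)) := by
    have h1 : R⁻¹ * (R * (ν • (h * Xc)) * U) * U⁻¹ = ν • (h * Xc) := by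
      rw [Matrix.mul_assoc R⁻¹, Matrix.mul_assoc R, Matrix.mul_assoc R, Matrix.mul_assoc (ν • (h * Xc)),
        Matrix.mul_nonsing_inv U (isUnit_iff_ne_zero.mpr hUd), Matrix.mul_one, ← Matrix.mul_assoc,
        Matrix.nonsing_inv_mul R (isUnit_iff_ne_zero.mpr hRd), Matrix.one_mul]
    rw [← h1]
    exact ent_mul (ent_mul (ent_inv hR hRd) hY) (ent_inv hU hUd)
  have hP : Ent C (ν • h) := by
    have h1 : (ν • (h * Xc)) * Xc⁻¹ = ν • h := by
      rw [Matrix.smul_mul, Matrix.mul_assoc, Matrix.mul_nonsing_inv Xc (isUnit_iff_ne_zero.mpr hXcd),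
        Matrix.mul_one]
    rw [← h1]
    exact ent_mul hZ (ent_inv (ent_rat X₀) hXcd)
  have hnu2 : ν ^ 2 ∈ C := by
    have h1 : (ν • h).transpose * Jc * (ν • h) = ν ^ 2 • Jc := by
      rw [Matrix.transpose_smul, Matrix.smul_mul, Matrix.smul_mul, Matrix.mul_smul, hsp, smul_smul, pow_two]
    have h2 : Ent C (ν ^ 2 • Jc) := by
      rw [← h1]
      exact ent_mul (ent_mul (ent_tr hP) (ent_rat J)) hP
    have h3 : ∃ i j, Jc i j ≠ 0 := by
      by_contra hcon
      push Not at hcon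
      apply hJcd
      have h4 : Jc = 0 := by ext i j; exact hcon i j
      rw [h4]
      exact Matrix.det_zero
    obtain ⟨i, j, hij⟩ := h3
    have h4 := h2 i j
    rw [Matrix.smul_apply, smul_eq_mul] at h4
    have h5 : ν ^ 2 = (ν ^ 2 * Jc i j) / Jc i j := by field_simp
    rw [h5]
    exact div_mem h4 (ent_rat J i j)
  have hnu : ν ∈ C := hC ν hnu2
  refine ⟨hnu, ?_⟩
  have hhC : Ent C h := by
    have h1 : ν⁻¹ • (ν • h) = h := by
      rw [smul_smul, inv_mul_cancel₀ hν, one_smul]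
    rw [← h1]
    exact ent_smul (inv_mem hnu) hP
  have h2 : (h + 1) * (1 - Ji * S) = (2 : ℂ) • (1 : Matrix (Fin n) (Fin n) ℂ) := by
    rw [add_mul, hh, one_mul, two_smul]
    abel
  have h3 : (h + 1).det ≠ 0 := by
    intro h0
    have h4 := congrArg Matrix.det h2
    rw [Matrix.det_mul, h0, zero_mul, Matrix.det_smul, Matrix.det_one, mul_one] at h4
    have h5 : (2 : ℂ) ^ Fintype.card (Fin n) ≠ 0 := pow_ne_zero _ two_ne_zero
    exact h5 h4.symm
  have h4 : 1 - Ji * S = (h + 1)⁻¹ * ((2 : ℂ) • (1 : Matrix (Fin n) (Fin n) ℂ)) := by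
    rw [← h2, ← Matrix.mul_assoc, Matrix.nonsing_inv_mul _ (isUnit_iff_ne_zero.mpr h3), Matrix.one_mul]
  have h2C : (2 : ℂ) ∈ C := ofNat_mem C 2
  have h5 : Ent C (1 - Ji * S) := by
    rw [h4]
    exact ent_mul (ent_inv (ent_add hhC ent_one) h3) (ent_smul h2C ent_one)
  have h6 : Ent C (Ji * S) := by
    have h7 : Ji * S = 1 - (1 - Ji * S) := by abel
    rw [h7]
    exact ent_sub ent_one h5
  have h7 : Ent C S := by
    have h8 : S = Jc * (Ji * S) := by
      rw [← Matrix.mul_assoc, hJJ, Matrix.one_mul]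
    rw [h8]
    exact ent_mul (ent_rat J) h6
  exact h7

end Pool.Agent.P8H7.CY
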